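import Pool.Agent.W852.FG.Stms

namespace Pool.Agent.W605.FG

open FrogGW
open scoped Classical

theorem mem_lev (Z : Env) : ∀ (n : ℕ) (u : List ℕ), u ∈ lev Z n ↔ InTree Z u ∧ u.length = n
  | 0, u => by
    unfold lev
    rw [Finset.mem_singleton]
    constructor
    · rintro rfl
      exact ⟨trivial, rfl⟩
    · rintro ⟨-, h⟩
      exact List.length_eq_zero_iff.mp h
  | n + 1, u => by
    unfold lev
    rw [Finset.mem_biUnion]
    constructor
    · rintro ⟨v, hv, hu⟩
      rw [Finset.mem_image] at hu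
      obtain ⟨i, hi, rfl⟩ := hu
      rw [mem_lev Z n v] at hv
      rw [Finset.mem_range] at hi
      exact ⟨⟨hv.1, hi⟩, by rw [List.length_cons, hv.2]⟩
    · rintro ⟨h1, h2⟩
      rcases u with _ | ⟨i, v⟩
      · simp at h2
      · refine ⟨v, (mem_lev Z n v).mpr ⟨h1.1, by simpa using h2⟩, ?_⟩
        rw [Finset.mem_image]
        exact ⟨i, Finset.mem_range.mpr h1.2, rfl⟩

theorem mem_vert (Z : Env) (N : ℕ) (u : List ℕ) : u ∈ vert Z N ↔ InTree Z u ∧ u.length < N := by
  unfold vert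
  rw [Finset.mem_biUnion]
  constructor
  · rintro ⟨n, hn, hu⟩
    rw [mem_lev] at hu
    rw [Finset.mem_range] at hn
    exact ⟨hu.1, by rw [hu.2]; exact hn⟩
  · rintro ⟨h1, h2⟩
    exact ⟨u.length, Finset.mem_range.mpr h2, (mem_lev Z _ u).mpr ⟨h1, rfl⟩⟩

/-- a step goes to a child or to the parent -/
theorem step_cases (Z : Env) (x : List ℕ) (s : ℝ) :
    (∃ a, step Z x s = a :: x) ∨ ∃ i, x = i :: step Z x s := by
  rcases x with _ | ⟨i, v⟩
  · left
    exact ⟨_, rfl⟩
  · simp only [step]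
    split_ifs with h
    · left
      exact ⟨_, rfl⟩
    · right
      exact ⟨i, rfl⟩

theorem step_tree {Z : Env} (hZ : 1 ≤ Z []) {x : List ℕ} (hx : InTree Z x) (s : ℝ) :
    InTree Z (step Z x s) := by
  rcases x with _ | ⟨i, v⟩
  · simp only [step]
    refine ⟨trivial, ?_⟩
    have : min ⌊s * (Z [] : ℝ)⌋₊ (Z [] - 1) ≤ Z [] - 1 := min_le_right _ _
    omega
  · simp only [step]
    split_ifs with h
    · exact ⟨hx, h⟩
    · exact hx.1

theorem hit_tree {Z : Env} (hZ : 1 ≤ Z []) {N : ℕ} : ∀ (m : ℕ) (x : List ℕ) (u : ℕ → ℝ)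
    (y : List ℕ), Hit Z N m x u y → y.length < N ∧ (InTree Z x → InTree Z y)
  | 0, x, u, y, h => by
    obtain ⟨h1, rfl⟩ := h
    exact ⟨h1, id⟩
  | m + 1, x, u, y, h => by
    obtain ⟨h1, h2⟩ := h
    rcases h2 with rfl | h2
    · exact ⟨h1, id⟩
    · obtain ⟨h3, h4⟩ := hit_tree hZ m _ _ _ h2
      exact ⟨h3, fun hx => h4 (step_tree hZ hx _)⟩

theorem hit_lt {Z : Env} {N : ℕ} : ∀ (m : ℕ) (x : List ℕ) (u : ℕ → ℝ) (y : List ℕ),
    Hit Z N m x u y → x.length < N
  | 0, _, _, _, h => h.1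
  | _ + 1, _, _, _, h => h.1

theorem hit_self {Z : Env} {N : ℕ} : ∀ (m : ℕ) (x : List ℕ) (u : ℕ → ℝ), x.length < N →
    Hit Z N m x u x
  | 0, _, _, h => ⟨h, rfl⟩
  | _ + 1, _, _, h => ⟨h, Or.inl rfl⟩

/-- the key fact: to reach `y` the walk has to visit the ancestors of `y` that are not ancestors
of the starting point -/
theorem hit_suffix {Z : Env} {N : ℕ} : ∀ (m : ℕ) (x : List ℕ) (u : ℕ → ℝ) (y t : List ℕ),
    Hit Z N m x u y → t <:+ y → ¬ t <:+ x → Hit Z N m x u t
  | 0, x, u, y, t, h, h1, h2 => by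
    obtain ⟨_, rfl⟩ := h
    exact absurd h1 h2
  | m + 1, x, u, y, t, h, h1, h2 => by
    obtain ⟨h3, h4⟩ := h
    rcases h4 with rfl | h4
    · exact absurd h1 h2
    · refine ⟨h3, Or.inr ?_⟩
      by_cases h5 : t <:+ step Z x (u 0)
      · rcases step_cases Z x (u 0) with ⟨a, ha⟩ | ⟨i, hi⟩
        · rw [ha, List.suffix_cons_iff] at h5
          rcases h5 with h5 | h5
          · rw [h5, ← ha]
            exact hit_self m _ _ (hit_lt m _ _ _ h4)
          · exact absurd h5 h2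
        · exfalso
          apply h2
          rw [hi]
          exact h5.trans (List.suffix_cons _ _)
      · exact hit_suffix m _ _ y t h4 h1 h5

theorem tv_suffix (lam γ : ℝ) (N : ℕ) (Z : Env) : ∀ y : List ℕ, tv lam γ N Z y <:+ y
  | [] => by
    unfold tv
    exact List.suffix_refl _
  | i :: u => by
    unfold tv
    split_ifs with h
    · exact List.suffix_refl _
    · exact (tv_suffix lam γ N Z u).trans (List.suffix_cons _ _)

theorem dom : TaskDom := by
  intro lam γ Z N ω y hZ hN hy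
  have main : y ∈ vert Z N ∧ Reach (blockRoot lam γ N Z) (vert Z N) (edge lam γ N Z) ω y ∧
      ∀ t : List ℕ, t <:+ y → t ≠ [] → ∃ x, Reach (blockRoot lam γ N Z) (vert Z N)
        (edge lam γ N Z) ω x ∧ ¬ t <:+ x ∧ ∃ j, j < cnt x (ω x) ∧
          Hit Z N N x ((ω x).2 j) t := by
    induction hy with
    | root =>
      have h1 : ([] : List ℕ) ∈ vert Z N := (mem_vert Z N []).mpr ⟨trivial, hN⟩
      refine ⟨h1, Reach.start ?_, ?_⟩
      · unfold blockRoot
        rw [Finset.mem_filter]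
        exact ⟨h1, rfl⟩
      · intro t ht ht0
        exact absurd (List.suffix_nil.mp ht) ht0
    | @wake x y j hx hj hhit ih =>
      obtain ⟨hxv, hxr, hx3⟩ := ih
      have hxt := ((mem_vert Z N x).mp hxv).1
      obtain ⟨hyl, hyt⟩ := hit_tree hZ N x _ y hhit
      have hyv : y ∈ vert Z N := (mem_vert Z N y).mpr ⟨hyt hxt, hyl⟩
      have h3 : ∀ t : List ℕ, t <:+ y → t ≠ [] → ∃ x, Reach (blockRoot lam γ N Z) (vert Z N)
          (edge lam γ N Z) ω x ∧ ¬ t <:+ x ∧ ∃ j, j < cnt x (ω x) ∧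
            Hit Z N N x ((ω x).2 j) t := by
        intro t ht ht0
        by_cases htx : t <:+ x
        · exact hx3 t htx ht0
        · exact ⟨x, hxr, htx, j, hj, hit_suffix N x _ y t hhit ht htx⟩
      refine ⟨hyv, ?_, h3⟩
      by_cases ht : tv lam γ N Z y = []
      · refine Reach.start ?_
        unfold blockRoot
        rw [Finset.mem_filter]
        exact ⟨hyv, ht⟩
      · obtain ⟨x', hx', h4, j', hj', h5⟩ := h3 _ (tv_suffix lam γ N Z y) ht
        exact Reach.step hx' hyv ⟨h4, j', hj', h5⟩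
  exact ⟨main.1, main.2.1⟩

end Pool.Agent.W605.FG
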